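import Mathlib
import Pool.Agent.H.MP_0815b2_gt.C

namespace Pool.Agent.Results.MP_0815b2_gt.Yes
open Set Pool.Agent.H.MP_0815b2_gt

theorem half {γ : ℝ → ℂ} (hp : ∀ t, γ (t + 1) = γ t)
    (inj : ∀ s t, s < t → t < s + 1 → γ t ≠ γ s) (ori : OR γ) {t0 t1 t2 t3 L : ℝ}
    (h1 : t0 < t1) (h2 : t1 < t2) (h3 : t2 < t3) (h4 : t3 < t0 + 1) (hL : 0 < L)
    (l1 : Len γ t0 t1 L) (l2 : Len γ t1 t2 L) (l3 : Len γ t2 t3 L) (l4 : Len γ t3 (t0 + 1) L)
    (hperp : (γ t0 - γ t2).re * (γ t1 - γ t3).re + (γ t0 - γ t2).im * (γ t1 - γ t3).im = 0) :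
    2 * L ≤ ‖γ t0 - γ t2‖ + ‖γ t1 - γ t3‖ := by
  have hx : 0 < ‖γ t0 - γ t2‖ :=
    norm_pos_iff.2 (sub_ne_zero.2 (inj t0 t2 (by linarith) (by linarith)).symm)
  set x := ‖γ t0 - γ t2‖ with hxd
  let e : ℂ := (starRingEnd ℂ) (γ t0 - γ t2) / (x : ℝ)
  have he : ‖e‖ = 1 := by
    simp only [e, norm_div, Complex.norm_conj, ← hxd]
    simp [hx.ne', abs_of_pos hx]
  let δ : ℝ → ℂ := fun t => e * γ t
  have hn : ∀ s t, ‖δ t - δ s‖ = ‖γ t - γ s‖ := fun s t => by
    simp only [δ, ← mul_sub, norm_mul, he, one_mul]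
  have hl : ∀ r r', Len γ r r' L → Len δ r r' L := fun r r' h ψ c hc =>
    h ψ c fun s t a b d => hn s t ▸ hc s t a b d
  have pe : ∀ t, δ (t + 1) = δ t := fun t => by simp only [δ, hp]
  have ij : ∀ s t, s < t → t < s + 1 → δ t ≠ δ s := fun s t a b c =>
    inj s t a b (by rw [← sub_eq_zero, ← norm_eq_zero, ← hn, c]; simp)
  have od : OR δ := fun s t u a b c => by
    have := ori s t u a b c
    have e2 : orr (δ s) (δ t) (δ u) = (e.re * e.re + e.im * e.im) * orr (γ s) (γ t) (γ u) := by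
      simp [δ, orr]; ring
    rw [e2]
    exact mul_nonneg (add_nonneg (mul_self_nonneg _) (mul_self_nonneg _)) this
  have k1 : δ t0 - δ t2 = (x : ℝ) := by
    have : ((x : ℝ) : ℂ) ≠ 0 := by exact_mod_cast hx.ne'
    simp only [δ, ← mul_sub, e]
    rw [div_mul_eq_mul_div, Complex.conj_mul', ← hxd]
    field_simp
  have k2 : (δ t1 - δ t3).re = 0 := by
    simp only [δ, ← mul_sub, e]
    rw [div_mul_eq_mul_div, Complex.div_ofReal_re, Complex.mul_re, Complex.conj_re,
      Complex.conj_im, div_eq_zero_iff]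
    left; linarith
  have a1 := congrArg Complex.re k1
  have a2 := congrArg Complex.im k1
  simp only [Complex.sub_re, Complex.sub_im, Complex.ofReal_re, Complex.ofReal_im] at a1 a2 k2
  have o1 := od t0 t1 t2 h1.le h2.le (by linarith)
  have o2 := od t0 t2 t3 (by linarith) h3.le h4.le
  simp only [orr] at o1 o2
  rw [show (δ t2).im - (δ t0).im = 0 by linarith, show (δ t2).re - (δ t0).re = -x by linarith]
    at o1 o2
  have b1 : (δ t0).im ≤ (δ t1).im := le_of_mul_le_mul_right (by linarith) hx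
  have b2 : (δ t3).im ≤ (δ t0).im := le_of_mul_le_mul_right (by linarith) hx
  have b3 : (δ t3).im < (δ t1).im := lt_of_le_of_ne (b2.trans b1) fun h =>
    ij t1 t3 (by linarith) (by linarith) (Complex.ext (by linarith) h)
  have p3 : δ (t3 - 1) = δ t3 := by rw [← pe, sub_add_cancel]
  have fr : Fr δ (t3 - 1) t0 t1 t2 := ⟨by linarith, h1, h2, by linarith, pe, ij, od, by linarith,
    by linarith, by rw [p3]; linarith, by rw [p3]; exact b3⟩
  have := fr.main hL (hl _ _ l1) (hl _ _ l2) (by rw [sub_add_cancel]; exact hl _ _ l3)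
    (by rw [sub_add_cancel]; exact hl _ _ l4)
  rw [p3] at this
  have b4 := Complex.im_le_norm (δ t1 - δ t3)
  rw [hn, Complex.sub_im] at b4
  linarith

theorem result (F : Set ℂ) (hF : IsCompact F) (hc : Convex ℝ F) (hi : (interior F).Nonempty)
    (γ : ℝ → ℂ) (cont : Continuous γ) (per : Function.Periodic γ 1) (inj : InjOn γ (Ico 0 1))
    (hr : range γ = frontier F) (p : ℝ) (hp : eVariationOn γ (Icc 0 1) = ENNReal.ofReal p)
    (t0 t1 t2 t3 : ℝ) (h1 : t0 < t1) (h2 : t1 < t2) (h3 : t2 < t3) (h4 : t3 < t0 + 1)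
    (l1 : eVariationOn γ (Icc t0 t1) = ENNReal.ofReal (p / 4))
    (l2 : eVariationOn γ (Icc t1 t2) = ENNReal.ofReal (p / 4))
    (l3 : eVariationOn γ (Icc t2 t3) = ENNReal.ofReal (p / 4))
    (l4 : eVariationOn γ (Icc t3 (t0 + 1)) = ENNReal.ofReal (p / 4))
    (hperp : inner ℝ (γ t0 - γ t2) (γ t1 - γ t3) = 0) :
    Metric.diam F ≤ dist (γ t0) (γ t2) + dist (γ t1) (γ t3) ∧
      p ≤ 2 * (dist (γ t0) (γ t2) + dist (γ t1) (γ t3)) := by
  have ij := inj_per per inj
  have hL : 0 < p / 4 := by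
    have := eVariationOn.edist_le γ (s := Icc t0 t1) (right_mem_Icc.2 h1.le) (left_mem_Icc.2 h1.le)
    rw [l1] at this
    exact ENNReal.ofReal_pos.1 ((edist_pos.2 (ij t0 t1 h1 (by linarith))).trans_le this)
  have hfr : frontier F = F \ interior F := hF.isClosed.frontier_eq
  have hγ : ∀ t, γ t ∈ F \ interior F := fun t => hfr ▸ hr ▸ mem_range_self t
  have m1 := len_of_var γ _ _ _ h1.le hL.le l1
  have m2 := len_of_var γ _ _ _ h2.le hL.le l2
  have m3 := len_of_var γ _ _ _ h3.le hL.le l3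
  have m4 := len_of_var γ _ _ _ h4.le hL.le l4
  have hperp' : (γ t0 - γ t2).re * (γ t1 - γ t3).re + (γ t0 - γ t2).im * (γ t1 - γ t3).im = 0 := by
    rw [Complex.inner, Complex.mul_re, Complex.conj_re, Complex.conj_im] at hperp
    linarith
  have main : 2 * (p / 4) ≤ ‖γ t0 - γ t2‖ + ‖γ t1 - γ t3‖ := by
    rcases orient hc hi cont per ij hγ with o | o
    · exact half per ij o h1 h2 h3 h4 hL m1 m2 m3 m4 hperp'
    · have hn : ∀ s t, ‖(starRingEnd ℂ) (γ t) - (starRingEnd ℂ) (γ s)‖ = ‖γ t - γ s‖ :=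
        fun s t => by rw [← map_sub, Complex.norm_conj]
      have hl : ∀ r r', Len γ r r' (p / 4) → Len (fun t => (starRingEnd ℂ) (γ t)) r r' (p / 4) :=
        fun r r' h ψ c hc => h ψ c fun s t a b d => hn s t ▸ hc s t a b d
      have := half (γ := fun t => (starRingEnd ℂ) (γ t)) (fun t => by rw [per t])
        (fun s t a b e => ij s t a b ((starRingEnd ℂ).injective e)) o h1 h2 h3 h4 hL
        (hl _ _ m1) (hl _ _ m2) (hl _ _ m3) (hl _ _ m4) (by
          simp only [Complex.sub_re, Complex.sub_im, Complex.conj_re, Complex.conj_im] at hperp' ⊢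
          linarith)
      rwa [hn, hn] at this
  simp only [dist_eq_norm]
  refine ⟨?_, by linarith⟩
  refine le_trans ?_ main
  have ne : F.Nonempty := hi.mono interior_subset
  obtain ⟨⟨x, y⟩, hxy, hmax⟩ := (hF.prod hF).exists_isMaxOn (ne.prod ne)
    (continuous_dist.continuousOn (s := F ×ˢ F))
  have far : ∀ x y, x ∈ F → y ∈ F → x ≠ y → (∀ z ∈ F, dist z y ≤ dist x y) →
      ∃ s ∈ Icc (0 : ℝ) 1, γ s = x := by
    intro x y hx hy hne hm
    have : x ∉ interior F := fun hx' => by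
      have c1 : Continuous fun c : ℝ => x + c • (x - y) := by fun_prop
      have := (c1.tendsto' 0 x (by simp)).eventually (mem_interior_iff_mem_nhds.1 hx')
      obtain ⟨c, hc1, hc2⟩ := ((this.filter_mono nhdsWithin_le_nhds).and
        (self_mem_nhdsWithin (s := Ioi (0 : ℝ)))).exists
      have h5 := hm _ hc1
      have hc3 : 0 < c := hc2
      rw [dist_eq_norm, dist_eq_norm, show x + c • (x - y) - y = (1 + c) • (x - y) by
        rw [add_smul, one_smul]; ring, norm_smul, Real.norm_of_nonneg (by linarith)] at h5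
      nlinarith [norm_pos_iff.2 (sub_ne_zero.2 hne)]
    obtain ⟨s, hs⟩ : x ∈ range γ := hr ▸ hfr ▸ ⟨hx, this⟩
    refine ⟨Int.fract s, ⟨Int.fract_nonneg s, (Int.fract_lt_one s).le⟩, ?_⟩
    have := per.sub_int_mul_eq (x := s) ⌊s⌋
    rwa [mul_one, hs] at this
  refine Metric.diam_le_of_forall_dist_le (by linarith) fun a ha b hb => ?_
  refine le_trans (hmax (a := (a, b)) ⟨ha, hb⟩) ?_
  show dist x y ≤ _
  by_cases hne : x = y
  · rw [hne, dist_self]; linarith
  obtain ⟨s, hs, rfl⟩ := far x y hxy.1 hxy.2 hne fun z hz => hmax (a := (z, y)) ⟨hz, hxy.2⟩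
  obtain ⟨t, ht, rfl⟩ := far y (γ s) hxy.2 hxy.1 (Ne.symm hne) fun z hz => by
    rw [dist_comm z, dist_comm y]; exact hmax (a := (γ s, z)) ⟨hxy.1, hz⟩
  have key : ∀ s t, 0 ≤ s → s ≤ t → t ≤ 1 → 2 * dist (γ s) (γ t) ≤ p := by
    intro s t a1 a2 a3
    have := eVariationOn.sum_le_of_monotoneOn_Iic (f := γ) (s := Icc 0 1) (n := 3)
      (u := fun i => if i = 0 then 0 else if i = 1 then s else if i = 2 then t else 1)
      (by
        intro i hi j hj hij
        simp only [mem_Iic] at hi hj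
        interval_cases j <;> interval_cases i <;> simp <;> linarith)
      (by
        intro i hi
        interval_cases i <;> simp <;> constructor <;> linarith)
    have p1 : γ 1 = γ 0 := by simpa using per 0
    simp only [Finset.sum_range_succ, Finset.sum_range_zero, hp, edist_dist] at this
    norm_num [p1] at this
    rw [← ENNReal.ofReal_add dist_nonneg dist_nonneg,
      ← ENNReal.ofReal_add (by positivity) dist_nonneg,
      ENNReal.ofReal_le_ofReal_iff (by linarith)] at this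
    have := dist_triangle (γ s) (γ 0) (γ t)
    rw [dist_comm (γ t)] at *
    linarith
  rcases le_total s t with h | h
  · linarith [key s t hs.1 h ht.2]
  · rw [dist_comm]; linarith [key t s ht.1 h hs.2]

end Pool.Agent.Results.MP_0815b2_gt.Yes
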